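import Pool.Agent.Helper22.SAi.FamExist

/-!
The stochastic Airy function is, as a function of the spectral parameter, an entire function of
order exactly `3/2`, almost surely.

All the deterministic work is done for paths which are continuous and whose oscillation on
windows of length `1/√t` is `O(t^(-1/8))`; almost every Brownian path has this property.
-/

namespace Pool.Agent.Results.MP_c9aaee_pr.OrderThreeHalves

open Filter Topology MeasureTheory
open Pool.Agent.Helper22.SAi

/-- The Wiener integral `X(t) = ∫_0^t exp(-(4/3)(t^{3/2} - u^{3/2})) dB(u)`, written pathwise by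
integration by parts (the derivative in `u` of the integrand is `2 √u` times the integrand). -/
noncomputable def frX (B : ℝ → ℝ) (t : ℝ) : ℝ :=
  B t - ∫ u in (0 : ℝ)..t,
    2 * Real.sqrt u * Real.exp (-(4 / 3) * (t ^ (3 / 2 : ℝ) - u ^ (3 / 2 : ℝ))) * B u

/-- The factor `(4π)^{-1/2} t^{-κ} exp(-∫_0^t X(u) du + 2 c / β)` in front of
`exp(-(2/3)(t+lam)^{3/2})` in the normalisation of the stochastic Airy function. It does not
depend on `lam`. -/
noncomputable def saiPrefactor (β κ c : ℝ) (B : ℝ → ℝ) (t : ℝ) : ℝ :=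
  1 / Real.sqrt (4 * Real.pi) * t ^ (-κ) * Real.exp (-(∫ u in (0 : ℝ)..t, frX B u) + 2 * c / β)

/-- Main result. Let `B` be a two-sided Brownian motion with `E[B(t)^2] = (4/β)|t|`.

1. Almost surely there is a family of solutions, one for every `lam : ℂ`, bounded on `[0,∞)` and
   normalised by `φ_lam(t) ~ G(t) exp(-(2/3)(t+lam)^{3/2})` with `G` not depending on `lam`.
2. Almost surely, for every family of this kind and every real `t`, the function
   `lam ↦ φ_lam(t)` is entire and its order is exactly `3/2`.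
3. In particular this holds for the stochastic Airy function, whatever the real exponent `κ` in the
   factor `t^{-κ}` of its normalisation. -/
theorem result (β : ℝ) (hβ : 0 < β) {Ω : Type*} [MeasurableSpace Ω] (P : Measure Ω)
    (B : ℝ → Ω → ℝ) (hB : IsTwoSidedBM P (4 / β) B) :
    (∀ᵐ ω ∂P, ∃ (G : ℝ → ℝ) (φ : ℂ → ℝ → ℂ), (∀ᶠ t in atTop, 0 < G t) ∧
      ∀ lam : ℂ, IsNormalised (fun t => B t ω) G lam (φ lam)) ∧
    (∀ᵐ ω ∂P, ∀ (G : ℝ → ℝ) (φ : ℂ → ℝ → ℂ), (∀ᶠ t in atTop, 0 < G t) →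
      (∀ lam : ℂ, IsNormalised (fun t => B t ω) G lam (φ lam)) →
      ∀ t : ℝ, Differentiable ℂ (fun lam => φ lam t) ∧
        growthOrder (fun lam => φ lam t) = ((3 / 2 : ℝ) : EReal)) ∧
    (∀ (κ c : ℝ) (SAi : Ω → ℂ → ℝ → ℂ),
      (∀ᵐ ω ∂P, ∀ lam : ℂ,
        IsNormalised (fun t => B t ω) (saiPrefactor β κ c (fun t => B t ω)) lam (SAi ω lam)) →
      ∀ t : ℝ, ∀ᵐ ω ∂P, Differentiable ℂ (fun lam => SAi ω lam t) ∧
        growthOrder (fun lam => SAi ω lam t) = ((3 / 2 : ℝ) : EReal)) := by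
  have hσ : 0 ≤ 4 / β := by positivity
  have hreg := pathReg_ae hB hσ
  have h2 : ∀ᵐ ω ∂P, ∀ (G : ℝ → ℝ) (φ : ℂ → ℝ → ℂ), (∀ᶠ t in atTop, 0 < G t) →
      (∀ lam : ℂ, IsNormalised (fun t => B t ω) G lam (φ lam)) →
      ∀ t : ℝ, Differentiable ℂ (fun lam => φ lam t) ∧
        growthOrder (fun lam => φ lam t) = ((3 / 2 : ℝ) : EReal) := by
    filter_upwards [hreg] with ω hω G φ hG hφ t
    obtain ⟨C, hC⟩ := hω
    exact entire_order_path hC hG hφ t
  refine ⟨?_, h2, ?_⟩
  · filter_upwards [hreg] with ω hω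
    obtain ⟨C, hC⟩ := hω
    obtain ⟨G, hG, φ, hφ⟩ := exists_family hC
    exact ⟨G, φ, hG, hφ⟩
  · intro κ c SAi hS t
    filter_upwards [h2, hS] with ω h3 h4
    refine h3 _ _ ?_ h4 t
    filter_upwards [eventually_gt_atTop 0] with s hs
    simp only [saiPrefactor]
    positivity

end Pool.Agent.Results.MP_c9aaee_pr.OrderThreeHalves
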